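import Pool.Agent.helper34.AC.Spec4

set_option autoImplicit false

namespace Pool.Agent.helper34.AC

open Classical in
theorem EPC_sum {V : Type} (G : SimpleGraph V) (U : Finset V) :
    ep G U = ∑ u ∈ U, ∑ w ∈ U, (if G.Adj u w then 1 else 0) := by
  unfold ep
  rw [Finset.card_filter, Finset.sum_product]

open Classical in
theorem EPC_dg {V : Type} (G : SimpleGraph V) (U : Finset V) (v : V) :
    dg G U v = ∑ w ∈ U, (if G.Adj v w then 1 else 0) := by
  unfold dg
  rw [Finset.card_filter]

theorem EPC_step {V : Type} [DecidableEq V] (G : SimpleGraph V) (U : Finset V) (v : V) (hv : v ∈ U) :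
    ep G U = ep G (U.erase v) + 2 * dg G U v := by
  classical
  have key : ∀ f : V → ℕ, ∑ w ∈ U, f w = f v + ∑ w ∈ U.erase v, f w := by
    intro f
    rw [Finset.add_sum_erase U f hv]
  rw [EPC_sum, EPC_sum, EPC_dg]
  rw [key (fun u => ∑ w ∈ U, (if G.Adj u w then 1 else 0))]
  have h1 : ∑ u ∈ U.erase v, ∑ w ∈ U, (if G.Adj u w then 1 else 0)
      = ∑ u ∈ U.erase v, ((if G.Adj u v then 1 else 0)
        + ∑ w ∈ U.erase v, (if G.Adj u w then 1 else 0)) := by
    apply Finset.sum_congr rfl
    intro u _
    rw [key]
  have h2 : ∑ u ∈ U.erase v, (if G.Adj u v then 1 else 0)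
      = ∑ w ∈ U, (if G.Adj v w then 1 else 0) := by
    rw [key (fun w => if G.Adj v w then 1 else 0)]
    simp only [SimpleGraph.irrefl, if_false, zero_add]
    apply Finset.sum_congr rfl
    intro u _
    simp only [G.adj_comm]
  rw [h1, Finset.sum_add_distrib, h2]
  ring

theorem EPC_even {V : Type} [DecidableEq V] (G : SimpleGraph V) (U : Finset V) : Even (ep G U) := by
  induction U using Finset.induction_on with
  | empty => simp [ep]
  | insert a s ha ih =>
    rw [EPC_step G (insert a s) a (Finset.mem_insert_self a s), Finset.erase_insert ha]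
    exact ih.add (even_two_mul _)

theorem EPC_mono {V : Type} (G : SimpleGraph V) {A U : Finset V} (h : A ⊆ U) : ep G A ≤ ep G U := by
  classical
  unfold ep
  exact Finset.card_le_card (Finset.filter_subset_filter _ (Finset.product_subset_product h h))

/-- **EPC**. -/
theorem EPC : EPC_stmt := by
  classical
  intro V _ G U
  refine ⟨by convert EPC_even G U, ?_, fun A hA => EPC_mono G hA, ?_, ?_⟩
  · intro v hv
    have := EPC_step G U v hv
    convert this
  · intro h
    unfold ep at h
    rw [Finset.card_pos] at h
    obtain ⟨p, hp⟩ := h
    rw [Finset.mem_filter, Finset.mem_product] at hp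
    refine ⟨p.1, hp.1.1, ?_⟩
    unfold dg
    rw [Finset.card_pos]
    exact ⟨p.2, Finset.mem_filter.mpr ⟨hp.1.2, hp.2⟩⟩
  · intro k
    induction k with
    | zero => intro _; exact ⟨∅, Finset.empty_subset _, by simp, by simp⟩
    | succ k ih =>
      intro hk
      obtain ⟨A, hAU, hAc, hAe⟩ := ih (by omega)
      by_cases hA : 2 * (k + 1) ≤ ep G A
      · exact ⟨A, hAU, by omega, hA⟩
      · have hex : ∃ p ∈ (U ×ˢ U).filter (fun p => G.Adj p.1 p.2),
            p ∉ (A ×ˢ A).filter (fun p => G.Adj p.1 p.2) := by
          by_contra hcon
          push Not at hcon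
          have : ep G U ≤ ep G A := by
            unfold ep
            exact Finset.card_le_card hcon
          omega
        obtain ⟨p, hp, hpA⟩ := hex
        have hp' := hp
        rw [Finset.mem_filter, Finset.mem_product] at hp'
        have hsub : insert p.1 (insert p.2 A) ⊆ U := by
          intro z hz
          rw [Finset.mem_insert, Finset.mem_insert] at hz
          rcases hz with rfl | rfl | hz
          · exact hp'.1.1
          · exact hp'.1.2
          · exact hAU hz
        refine ⟨insert p.1 (insert p.2 A), hsub, ?_, ?_⟩
        · have h1 := Finset.card_insert_le p.1 (insert p.2 A)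
          have h2 := Finset.card_insert_le p.2 A
          omega
        · have hlt : ep G A < ep G (insert p.1 (insert p.2 A)) := by
            unfold ep
            apply Finset.card_lt_card
            rw [Finset.ssubset_iff_of_subset]
            · refine ⟨p, ?_, hpA⟩
              rw [Finset.mem_filter, Finset.mem_product]
              exact ⟨⟨Finset.mem_insert_self _ _,
                Finset.mem_insert_of_mem (Finset.mem_insert_self _ _)⟩, hp'.2⟩
            · apply Finset.filter_subset_filter
              have : A ⊆ insert p.1 (insert p.2 A) := fun z hz =>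
                Finset.mem_insert_of_mem (Finset.mem_insert_of_mem hz)
              exact Finset.product_subset_product this this
          have he := EPC_even G (insert p.1 (insert p.2 A))
          obtain ⟨c, hc⟩ := he
          omega

end Pool.Agent.helper34.AC
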